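import Pool.Agent.W564.SC.Defs
import Pool.Agent.H922R3.CL.Hyp

/-!
Project SC, part EX2: hyperbolic automorphisms of tori have periodic shadowing and are chain mixing.
-/

set_option linter.unusedSectionVars false

open scoped Manifold ContDiff Topology
open Filter Set Metric

namespace Pool.Agent.W806.SC

open Pool.Agent.W564.SC

variable {W : Type} [NormedAddCommGroup W] [NormedSpace ℝ W] [FiniteDimensional ℝ W]
  {Λ : AddSubgroup W} [DiscreteTopology Λ] [IsClosed (Λ : Set W)]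

lemma iter_mk (L : W ≃L[ℝ] W) (h : (W ⧸ Λ) → (W ⧸ Λ))
    (hh : ∀ z : W, h (QuotientAddGroup.mk z) = QuotientAddGroup.mk (L z)) (n : ℕ) (z : W) :
    h^[n] (QuotientAddGroup.mk z) = QuotientAddGroup.mk (L^[n] z) := by
  induction n with
  | zero => rfl
  | succ n ih => rw [Function.iterate_succ_apply', ih, hh, Function.iterate_succ_apply']

/-- lifting of pseudo-orbits -/
lemma lift_po (L : W ≃L[ℝ] W) (h : (W ⧸ Λ) → (W ⧸ Λ))
    (hh : ∀ z : W, h (QuotientAddGroup.mk z) = QuotientAddGroup.mk (L z)) (w : ℕ → W ⧸ Λ) (m : ℕ)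
    (δ : ℝ) (hw : ∀ i < m, dist (h (w i)) (w (i + 1)) < δ) :
    ∀ n ≤ m, ∃ a : ℕ → W, (∀ i ≤ n, (QuotientAddGroup.mk (a i) : W ⧸ Λ) = w i) ∧
      ∀ i < n, ‖L (a i) - a (i + 1)‖ ≤ δ := by
  intro n
  induction n with
  | zero =>
    intro _
    obtain ⟨z, hz⟩ := QuotientAddGroup.mk_surjective (w 0)
    refine ⟨fun _ => z, fun i hi => ?_, fun i hi => absurd hi (by omega)⟩
    have : i = 0 := by omega
    rw [this]
    exact hz
  | succ n ih =>
    intro hn
    obtain ⟨a, ha1, ha2⟩ := ih (by omega)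
    obtain ⟨b, hb⟩ := QuotientAddGroup.mk_surjective (w (n + 1))
    have h1 := hw n (by omega)
    rw [dist_eq_norm, ← ha1 n le_rfl, hh, ← hb, ← QuotientAddGroup.mk_sub] at h1
    obtain ⟨c, hc1, hc2⟩ := QuotientAddGroup.norm_lt_iff.1 h1
    refine ⟨Function.update a (n + 1) (L (a n) - c), fun i hi => ?_, fun i hi => ?_⟩
    · by_cases h2 : i = n + 1
      · subst h2
        rw [Function.update_self, QuotientAddGroup.mk_sub, hc1, QuotientAddGroup.mk_sub, ← hb]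
        abel
      · rw [Function.update_of_ne h2]
        exact ha1 i (by omega)
    · rw [Function.update_of_ne (by omega : i ≠ n + 1)]
      by_cases h2 : i = n
      · subst h2
        rw [Function.update_self, sub_sub_cancel]
        exact hc2.le
      · rw [Function.update_of_ne (by omega : i + 1 ≠ n + 1)]
        exact ha2 i (by omega)

lemma shadow (L : W ≃L[ℝ] W) (hL : Pool.Agent.H922R3.CL.IsHypLin L) (h : (W ⧸ Λ) → (W ⧸ Λ))
    (hh : ∀ z : W, h (QuotientAddGroup.mk z) = QuotientAddGroup.mk (L z)) : PerShadow h := by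
  obtain ⟨K, hK, hs⟩ := Pool.Agent.H922R3.CL.shadow_lin hL
  intro η hη
  refine ⟨η / (2 * K), by positivity, fun m w hm hwm hw => ?_⟩
  obtain ⟨a, ha1, ha2⟩ := lift_po L h hh w m _ hw m le_rfl
  obtain ⟨p, hp1, hp2⟩ := hs (η / (2 * K)) m a hm ha2
  refine ⟨QuotientAddGroup.mk p, ?_, fun i hi => ?_⟩
  · rw [iter_mk L h hh, hp1, QuotientAddGroup.mk_add, QuotientAddGroup.mk_sub, ha1 m le_rfl,
      ha1 0 (Nat.zero_le _), hwm, sub_self, add_zero]
  · rw [iter_mk L h hh, ← ha1 i hi.le, dist_eq_norm, ← QuotientAddGroup.mk_sub]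
    refine lt_of_le_of_lt QuotientAddGroup.norm_mk_le_norm ?_
    have h1 := hp2 i hi.le
    have h2 : K * (η / (2 * K)) = η / 2 := by field_simp
    linarith

lemma comp (hC : ∃ C : ℝ, ∀ z : W, ∃ u ∈ Λ, ‖z - u‖ ≤ C) : CompactSpace (W ⧸ Λ) := by
  obtain ⟨C, hC⟩ := hC
  have hp : ProperSpace W := FiniteDimensional.proper ℝ W
  have h1 : IsCompact (closedBall (0 : W) C) := isCompact_closedBall 0 C
  have hcont : Continuous (QuotientAddGroup.mk : W → W ⧸ Λ) := continuous_quotient_mk'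
  have h2 := h1.image hcont
  have h3 : (QuotientAddGroup.mk : W → W ⧸ Λ) '' closedBall (0 : W) C = Set.univ := by
    refine Set.eq_univ_of_forall fun x => ?_
    obtain ⟨z, rfl⟩ := QuotientAddGroup.mk_surjective x
    obtain ⟨u, hu, hzu⟩ := hC z
    refine ⟨z - u, by simpa using hzu, ?_⟩
    rw [QuotientAddGroup.mk_sub, (QuotientAddGroup.eq_zero_iff u).2 hu, sub_zero]
  rw [h3] at h2
  exact ⟨h2⟩

lemma conn : PreconnectedSpace (W ⧸ Λ) := by
  have hcont : Continuous (QuotientAddGroup.mk : W → W ⧸ Λ) := continuous_quotient_mk'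
  have h2 := (isPreconnected_univ (α := W)).image _ hcont.continuousOn
  rw [Set.image_univ_of_surjective QuotientAddGroup.mk_surjective] at h2
  exact ⟨h2⟩

/-- torsion points are periodic -/
lemma tors_per (hC : ∃ C : ℝ, ∀ z : W, ∃ u ∈ Λ, ‖z - u‖ ≤ C) (L : W ≃L[ℝ] W)
    (hΛ : ∀ u, u ∈ Λ ↔ L u ∈ Λ) (h : (W ⧸ Λ) ≃ₜ (W ⧸ Λ))
    (hh : ∀ z : W, h (QuotientAddGroup.mk z) = QuotientAddGroup.mk (L z)) (n : ℕ) (hn : 1 ≤ n)
    (x : W ⧸ Λ) (hx : n • x = 0) : ∃ m : ℕ, 1 ≤ m ∧ h^[m] x = x := by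
  obtain ⟨C, hC⟩ := hC
  have hp : ProperSpace W := FiniteDimensional.proper ℝ W
  have hn0 : (0 : ℝ) < n := by exact_mod_cast hn
  have hfin : ((closedBall (0 : W) (n * C)) ∩ (Λ : Set W)).Finite :=
    Metric.finite_isBounded_inter_isClosed DiscreteTopology.isDiscrete isBounded_closedBall
      inferInstance
  have hT : {y : W ⧸ Λ | n • y = 0}.Finite := by
    refine (hfin.image fun u : W => (QuotientAddGroup.mk ((n : ℝ)⁻¹ • u) : W ⧸ Λ)).subset ?_
    intro y hy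
    obtain ⟨z, rfl⟩ := QuotientAddGroup.mk_surjective y
    obtain ⟨u, hu, hzu⟩ := hC z
    have h1 : n • z ∈ Λ := by
      have h2 : n • (QuotientAddGroup.mk z : W ⧸ Λ) = 0 := hy
      rw [← QuotientAddGroup.mk_nsmul] at h2
      exact (QuotientAddGroup.eq_zero_iff _).1 h2
    have e1 : (n : ℝ) • (z - u) = n • z - n • u := by
      rw [← Nat.cast_smul_eq_nsmul ℝ, ← Nat.cast_smul_eq_nsmul ℝ, smul_sub]
    refine ⟨(n : ℝ) • (z - u), ⟨?_, ?_⟩, ?_⟩
    · rw [mem_closedBall_zero_iff, norm_smul, Real.norm_natCast]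
      exact mul_le_mul_of_nonneg_left hzu hn0.le
    · rw [e1]
      exact Λ.sub_mem h1 (Λ.nsmul_mem hu n)
    · simp only
      rw [smul_smul, inv_mul_cancel₀ hn0.ne', one_smul, QuotientAddGroup.mk_sub,
        (QuotientAddGroup.eq_zero_iff u).2 hu, sub_zero]
  have hinv : ∀ y : W ⧸ Λ, n • y = 0 → n • h y = 0 := by
    intro y hy
    obtain ⟨z, rfl⟩ := QuotientAddGroup.mk_surjective y
    rw [← QuotientAddGroup.mk_nsmul] at hy
    rw [hh, ← QuotientAddGroup.mk_nsmul, ← map_nsmul]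
    exact (QuotientAddGroup.eq_zero_iff _).2 ((hΛ _).1 ((QuotientAddGroup.eq_zero_iff _).1 hy))
  have hinv' : ∀ k : ℕ, n • h^[k] x = 0 := by
    intro k
    induction k with
    | zero => exact hx
    | succ k ih =>
      rw [Function.iterate_succ_apply']
      exact hinv _ ih
  have : Finite {y : W ⧸ Λ | n • y = 0} := hT
  obtain ⟨i, j, hij, he⟩ := Finite.exists_ne_map_eq_of_infinite
    (fun k : ℕ => (⟨h^[k] x, hinv' k⟩ : {y : W ⧸ Λ | n • y = 0}))
  have he' : h^[i] x = h^[j] x := congrArg Subtype.val he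
  have hinj : ∀ k : ℕ, Function.Injective h^[k] := fun k => h.injective.iterate k
  rcases lt_or_gt_of_ne hij with hlt | hlt
  · refine ⟨j - i, by omega, ?_⟩
    apply hinj i
    rw [← Function.iterate_add_apply, he']
    congr 2
    omega
  · refine ⟨i - j, by omega, ?_⟩
    apply hinj j
    rw [← Function.iterate_add_apply, ← he']
    congr 2
    omega

lemma dens (hC : ∃ C : ℝ, ∀ z : W, ∃ u ∈ Λ, ‖z - u‖ ≤ C) (L : W ≃L[ℝ] W)
    (hΛ : ∀ u, u ∈ Λ ↔ L u ∈ Λ) (h : (W ⧸ Λ) ≃ₜ (W ⧸ Λ))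
    (hh : ∀ z : W, h (QuotientAddGroup.mk z) = QuotientAddGroup.mk (L z)) :
    Dense {p : W ⧸ Λ | ∃ m : ℕ, 1 ≤ m ∧ h^[m] p = p} := by
  intro x
  rw [Metric.mem_closure_iff]
  intro ε hε
  obtain ⟨z, rfl⟩ := QuotientAddGroup.mk_surjective x
  have hC0 := hC
  obtain ⟨C, hC⟩ := hC
  obtain ⟨n, hn⟩ := exists_nat_gt (max 1 (C / ε))
  have hn1 : (1 : ℝ) < n := (le_max_left _ _).trans_lt hn
  have hn2 : C / ε < n := (le_max_right _ _).trans_lt hn
  have hn0 : (0 : ℝ) < n := by linarith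
  obtain ⟨u, hu, hzu⟩ := hC ((n : ℝ) • z)
  refine ⟨QuotientAddGroup.mk ((n : ℝ)⁻¹ • u), ?_, ?_⟩
  · refine tors_per hC0 L hΛ h hh n (by exact_mod_cast hn1.le) _ ?_
    rw [← QuotientAddGroup.mk_nsmul, ← Nat.cast_smul_eq_nsmul ℝ, smul_smul,
      mul_inv_cancel₀ hn0.ne', one_smul]
    exact (QuotientAddGroup.eq_zero_iff _).2 hu
  · rw [dist_eq_norm, ← QuotientAddGroup.mk_sub]
    refine lt_of_le_of_lt QuotientAddGroup.norm_mk_le_norm ?_
    have e1 : z - (n : ℝ)⁻¹ • u = (n : ℝ)⁻¹ • ((n : ℝ) • z - u) := by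
      rw [smul_sub, smul_smul, inv_mul_cancel₀ hn0.ne', one_smul]
    rw [e1, norm_smul, norm_inv, Real.norm_natCast]
    rw [div_lt_iff₀ hε] at hn2
    calc (n : ℝ)⁻¹ * ‖(n : ℝ) • z - u‖ ≤ (n : ℝ)⁻¹ * C :=
          mul_le_mul_of_nonneg_left hzu (by positivity)
      _ < (n : ℝ)⁻¹ * (n * ε) := mul_lt_mul_of_pos_left hn2 (by positivity)
      _ = ε := by rw [← mul_assoc, inv_mul_cancel₀ hn0.ne', one_mul]

theorem ex2 (h : S_EX1.{0}) : S_EX2 := by
  intro W _ _ _ Λ _ _ hC L hL hΛ f hf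
  have h1 : CompactSpace (W ⧸ Λ) := comp hC
  have h2 : PreconnectedSpace (W ⧸ Λ) := conn
  exact ⟨shadow L hL f hf, h (W ⧸ Λ) f (dens hC L hΛ f hf)⟩

end Pool.Agent.W806.SC
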